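import Pool.Agent.NTW.StmtsA
import Pool.Agent.Helper69_PFJ.Lsc

set_option autoImplicit false

open Matrix Filter Topology

namespace Pool.Agent.NTW.H91

open Pool.Agent.PFS Pool.Agent.PFJ Pool.Agent.NTS

variable {n : ℕ}

theorem limS_sub {L : ℕ → Submodule ℝ (V n)} {L' : Submodule ℝ (V n)} (h : LimS L L')
    {φ : ℕ → ℕ} (hφ : StrictMono φ) : LimS (fun m => L (φ m)) L' := by
  refine ⟨fun x hx => ?_, fun ψ y x hψ hy hyx => ?_⟩
  · obtain ⟨y, hy, hyx⟩ := h.1 x hx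
    exact ⟨fun m => y (φ m), fun m => hy (φ m), hyx.comp hφ.tendsto_atTop⟩
  · exact h.2 (φ ∘ ψ) y x (hφ.comp hψ) hy hyx

/-- compactness for finitely many sequences of subspaces at once -/
theorem sub_fin {I : Type} [DecidableEq I] (L : I → ℕ → Submodule ℝ (V n)) (S : Finset I) :
    ∃ (φ : ℕ → ℕ) (L' : I → Submodule ℝ (V n)), StrictMono φ ∧ ∀ p ∈ S,
      LimS (fun m => L p (φ m)) (L' p) ∧
      ∀ m, Module.finrank ℝ (L p (φ m)) = Module.finrank ℝ (L' p) := by
  induction S using Finset.induction_on with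
  | empty => exact ⟨id, fun _ => ⊥, strictMono_id, fun p hp => absurd hp (Finset.notMem_empty p)⟩
  | insert a S ha ih =>
    obtain ⟨φ, L', hφ, h⟩ := ih
    obtain ⟨ψ, M, hψ, h1, h2⟩ := Pool.Agent.PFJ.H69.lsc n (fun m => L a (φ m))
    refine ⟨φ ∘ ψ, Function.update L' a M, hφ.comp hψ, fun p hp => ?_⟩
    by_cases hpa : p = a
    · subst hpa
      rw [Function.update_self]
      exact ⟨h1, h2⟩
    · rw [Function.update_of_ne hpa]
      have hpS : p ∈ S := (Finset.mem_insert.1 hp).resolve_left hpa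
      exact ⟨limS_sub (h p hpS).1 hψ, fun m => (h p hpS).2 (ψ m)⟩

theorem tcl (hPBF : PbfStmt) (hPBL : PblStmt) (hTBX : TbxStmt) : TclStmt := by
  intro n C Γ K c τ hD x w hx hxw hw
  obtain ⟨φ, L', hφ, h⟩ := sub_fin
    (fun (p : Fin K × Fin K) m => Fs C (x m p.1) (x m p.2)) Finset.univ
  have hPB : ∀ i j, i ≠ j → PB C w i j (L' (i, j)) := by
    intro i j hij
    exact hPBL n C hD.toCC.toPCone K (fun m => x (φ m)) w i j
      (fun m => Fs C (x (φ m) i) (x (φ m) j)) (L' (i, j)) hij (fun m => (hx (φ m)).pes.1) hw.1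
      (fun l => (hxw l).comp hφ.tendsto_atTop)
      (fun m => (hTBX n C Γ K c τ hD (x (φ m)) (hx (φ m))).1 i j hij)
      (h (i, j) (Finset.mem_univ _)).1
  have hdim : ∀ i j, i ≠ j → Module.finrank ℝ (L' (i, j)) = c i j := by
    intro i j hij
    rw [← (h (i, j) (Finset.mem_univ _)).2 0]
    exact hD.dim (x (φ 0)) (hx (φ 0)) i j hij
  have hTT : TT C Γ c w := ⟨hw, fun i j hij => ⟨L' (i, j), hPB i j hij, (hdim i j hij).ge⟩⟩
  refine ⟨hTT, φ, hφ, fun i j hij => ?_⟩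
  have hle : L' (i, j) ≤ Fs C (w i) (w j) :=
    ((hPBF n C hD.toCC.toPCone K w hw.1 i j hij).1 (L' (i, j)) (hPB i j hij)).2.1
  have heq : L' (i, j) = Fs C (w i) (w j) := by
    apply Submodule.eq_of_le_of_finrank_eq hle
    rw [hdim i j hij, hD.dim w hTT i j hij]
  rw [← heq]
  exact (h (i, j) (Finset.mem_univ _)).1

end Pool.Agent.NTW.H91
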